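import Pool.Agent.H593Six.Main

set_option autoImplicit false

namespace Pool.Agent.Results.MP_9b4c5b_co.NoSixConics

open H593Six

/-- There is no 6-configuration: no six distinct points of the plane together with six pairwise
distinct and pairwise congruent nondegenerate conics, each of which contains exactly five of the
points. -/
theorem result : ¬ ∃ (p : Fin 6 → Pl) (C : Fin 6 → Set Pl), IsConfiguration 6 p C := by
  rintro ⟨p, C, h⟩
  exact no_six p C h

end Pool.Agent.Results.MP_9b4c5b_co.NoSixConics
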